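import Mathlib

/-!
# A local search algorithm for linear matroid parity: definitions

`E` is a finite dimensional vector space over the field `K`, `T` an alternating form on `E` (as a
map to the dual space), and for each index `i` there is a line, spanned by the two functionals
`a i`, `b i`. A *move* adds a multiple of `a i ∧ b i` to `T`.
-/

set_option autoImplicit false

namespace Pool.Agent.Helper36.LM

open Module Finset

section

variable {K : Type} [Field K] {E : Type} [AddCommGroup E] [Module K E]

/-- The alternating form `c ∧ d`: `(c ∧ d) φ φ' = c φ * d φ' - d φ * c φ'`. -/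
noncomputable def wed (c d : Dual K E) : E →ₗ[K] Dual K E := c.smulRight d - d.smulRight c

theorem wed_apply (c d : Dual K E) (φ φ' : E) : wed c d φ φ' = c φ * d φ' - d φ * c φ' := by
  simp [wed]

/-- The vectors which are orthogonal to `W`. -/
def orth (T : E →ₗ[K] Dual K E) (W : Submodule K E) : Submodule K E where
  carrier := {v | ∀ w ∈ W, T w v = 0}
  add_mem' := fun ha hb w hw => by rw [map_add, ha w hw, hb w hw, add_zero]
  zero_mem' := fun w _ => map_zero _
  smul_mem' := fun r x hx w hw => by rw [map_smul, hx w hw, smul_zero]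

theorem mem_orth {T : E →ₗ[K] Dual K E} {W : Submodule K E} {v : E} :
    v ∈ orth T W ↔ ∀ w ∈ W, T w v = 0 := Iff.rfl

end

/-- `K` has more than `n` elements. -/
def Big (K : Type) (n : ℕ) : Prop := ∀ S : Finset K, S.card ≤ n → ∃ μ : K, μ ∉ S

/-- `P` holds outside of a set with at most `n` elements. -/
def Good {K : Type} (n : ℕ) (P : K → Prop) : Prop :=
  ∃ S : Finset K, S.card ≤ n ∧ ∀ μ, μ ∉ S → P μ

/-- An alternating form and a family of lines in the dual space. -/
structure Conf (K : Type) [Field K] (E : Type) [AddCommGroup E] [Module K E] (ι : Type) where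
  /-- the form -/
  T : E →ₗ[K] Dual K E
  /-- first vectors -/
  a : ι → Dual K E
  /-- second vectors -/
  b : ι → Dual K E
  alt : ∀ φ, T φ φ = 0
  ind : ∀ i (α β : K), α • a i + β • b i = 0 → α = 0 ∧ β = 0

namespace Conf

variable {K : Type} [Field K] {E : Type} [AddCommGroup E] [Module K E] {ι : Type}

/-- the lines -/
def line (C : Conf K E ι) (i : ι) : Submodule K (Dual K E) := Submodule.span K {C.a i, C.b i}

/-- the range of the form -/
noncomputable def R (C : Conf K E ι) : Submodule K (Dual K E) := LinearMap.range C.T

/-- `i` is adjacent to `k`. -/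
def adj (C : Conf K E ι) (i k : ι) : Prop :=
  ∃ ψ φ, C.T ψ ∈ C.line i ∧ C.T φ ∈ C.line k ∧ C.T ψ φ ≠ 0

/-- A frame of the line `i`: the line is spanned by `c` and `d`, where `c = T ψ` is in the range of
the form and `d` is not. -/
structure Fr (C : Conf K E ι) (i : ι) (c : Dual K E) (ψ : E) (d : Dual K E) : Prop where
  eq : C.T ψ = c
  ne : c ≠ 0
  span : C.line i = Submodule.span K {c, d}
  nmem : d ∉ C.R

/-- The twisted configuration: `f` becomes `f + μ f(ψ) d`. -/
noncomputable def tw (C : Conf K E ι) (ψ : E) (d : Dual K E) (μ : K) (h : 1 + μ * d ψ ≠ 0) :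
    Conf K E ι where
  T := C.T
  a i := C.a i + (μ * C.a i ψ) • d
  b i := C.b i + (μ * C.b i ψ) • d
  alt := C.alt
  ind := by
    intro i α β h0
    have h1 : (α • C.a i + β • C.b i) + (μ * (α • C.a i + β • C.b i) ψ) • d = 0 := by
      rw [← h0]
      simp only [LinearMap.add_apply, LinearMap.smul_apply, smul_eq_mul]
      module
    have h2 : (α • C.a i + β • C.b i) ψ * (1 + μ * d ψ) = 0 := by
      have := congrArg (fun f : Dual K E => f ψ) h1
      simp only [LinearMap.add_apply, LinearMap.smul_apply, smul_eq_mul,
        LinearMap.zero_apply] at this ⊢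
      linear_combination this
    have h3 : (α • C.a i + β • C.b i) ψ = 0 := by
      rcases mul_eq_zero.1 h2 with h3 | h3
      · exact h3
      · exact absurd h3 h
    rw [h3, mul_zero, zero_smul, add_zero] at h1
    exact C.ind i α β h1

/-- Isomorphic configurations. -/
def Iso (C C' : Conf K E ι) (g : E ≃ₗ[K] E) : Prop :=
  (∀ φ φ', C.T φ φ' = C'.T (g φ) (g φ')) ∧ (∀ i φ, C.a i φ = C'.a i (g φ)) ∧
    ∀ i φ, C.b i φ = C'.b i (g φ)

variable [Fintype ι]

/-- Adding `∑ y_i a_i ∧ b_i` to the form. -/
noncomputable def move (C : Conf K E ι) (y : ι → K) : Conf K E ι where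
  T := C.T + ∑ i, y i • wed (C.a i) (C.b i)
  a := C.a
  b := C.b
  alt := by
    intro φ
    rw [LinearMap.add_apply, LinearMap.add_apply, C.alt, zero_add, LinearMap.sum_apply,
      LinearMap.sum_apply]
    refine Finset.sum_eq_zero fun i _ => ?_
    rw [LinearMap.smul_apply, LinearMap.smul_apply, wed_apply]
    ring
  ind := C.ind

open Classical in
/-- the lines which meet the range of the form in a space of dimension one -/
noncomputable def one (C : Conf K E ι) : Finset ι :=
  Finset.univ.filter (fun i => finrank K (C.line i ⊓ C.R : Submodule K (Dual K E)) = 1)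

open Classical in
/-- the number of adjacent pairs of such lines -/
noncomputable def num (C : Conf K E ι) : ℕ :=
  ((C.one ×ˢ C.one).filter (fun p => C.adj p.1 p.2)).card

/-- the rank of the form -/
noncomputable def rnk (C : Conf K E ι) : ℕ := finrank K C.R

/-- The potential: rank, number of lines of type one, number of adjacent pairs, in lexicographic
order. -/
noncomputable def pot (C : Conf K E ι) : ℕ :=
  (C.rnk * (Fintype.card ι + 1) + C.one.card) * (Fintype.card ι ^ 2 + 1) + C.num

open Classical in
/-- The potential becomes larger than `p` for some change of at most `s` coordinates. -/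
def Imp (C : Conf K E ι) (p s : ℕ) : Prop :=
  ∃ y : ι → K, (Finset.univ.filter (fun i => y i ≠ 0)).card ≤ s ∧ p < (C.move y).pot

end Conf

end Pool.Agent.Helper36.LM
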