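import Pool.Agent.Helper36.LM.Defs

/-!
# A local search algorithm for linear matroid parity: matrix form

The lines are spanned by vectors `a i`, `b i` with entries in `K`, the form is the skew-symmetric
matrix `T(x) = ∑ x_i (a_i b_iᵀ - b_i a_iᵀ)`, and the potential is expressed by ranks of matrices.
-/

set_option autoImplicit false

namespace Pool.Agent.Helper36.LM

open Module Finset Matrix

variable {K D ι : Type} [Field K] [Fintype D] [DecidableEq D] [Fintype ι]

/-- `T(x) = ∑ x_i (a_i b_iᵀ - b_i a_iᵀ)` -/
def tmat (a b : ι → D → K) (x : ι → K) : Matrix D D K :=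
  ∑ i, x i • (vecMulVec (a i) (b i) - vecMulVec (b i) (a i))

/-- the two columns `a i`, `b i` -/
def cols (a b : ι → D → K) (i : ι) : Matrix D (Fin 2) K := Matrix.of fun u j => ![a i u, b i u] j

open Classical in
/-- the lines of type one: `rank [T | a_i b_i] = rank T + 1` -/
noncomputable def mone (a b : ι → D → K) (x : ι → K) : Finset ι :=
  Finset.univ.filter (fun i =>
    (fromCols (tmat a b x) (cols a b i)).rank = (tmat a b x).rank + 1)

open Classical in
/-- the number of adjacent pairs: the bordered matrix has rank `rank T + 3` -/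
noncomputable def mnum (a b : ι → D → K) (x : ι → K) : ℕ :=
  ((mone a b x ×ˢ mone a b x).filter (fun p =>
    (fromBlocks (tmat a b x) (cols a b p.2) (cols a b p.1)ᵀ 0).rank =
      (tmat a b x).rank + 3)).card

/-- the potential -/
noncomputable def mpot (a b : ι → D → K) (x : ι → K) : ℕ :=
  ((tmat a b x).rank * (Fintype.card ι + 1) + (mone a b x).card) * (Fintype.card ι ^ 2 + 1) +
    mnum a b x

theorem dot_tmat (a b : ι → D → K) (x : ι → K) (φ φ' : D → K) :
    φ ⬝ᵥ (tmat a b x *ᵥ φ') =
      ∑ i, x i * ((a i ⬝ᵥ φ) * (b i ⬝ᵥ φ') - (b i ⬝ᵥ φ) * (a i ⬝ᵥ φ')) := by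
  unfold tmat
  rw [Matrix.sum_mulVec, dotProduct_sum]
  refine Finset.sum_congr rfl fun i _ => ?_
  rw [Matrix.smul_mulVec, dotProduct_smul, Matrix.sub_mulVec, dotProduct_sub, smul_eq_mul]
  congr 1
  rw [Matrix.vecMulVec_mulVec, Matrix.vecMulVec_mulVec]
  simp only [dotProduct_comm φ, MulOpposite.smul_eq_mul_unop, MulOpposite.unop_op,
    smul_dotProduct]

/-- the functional of a vector -/
def fnl (v : D → K) : Dual K (D → K) := dotProductEquiv K D v

theorem fnl_apply (v w : D → K) : fnl v w = v ⬝ᵥ w := rfl

/-- the configuration of a family of lines and a vector `x` -/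
noncomputable def conf (a b : ι → D → K) (x : ι → K)
    (h : ∀ i (α β : K), α • a i + β • b i = 0 → α = 0 ∧ β = 0) : Conf K (D → K) ι where
  T := ∑ i, x i • wed (fnl (a i)) (fnl (b i))
  a i := fnl (a i)
  b i := fnl (b i)
  alt := by
    intro φ
    rw [LinearMap.sum_apply, LinearMap.sum_apply]
    refine Finset.sum_eq_zero fun i _ => ?_
    rw [LinearMap.smul_apply, LinearMap.smul_apply, wed_apply]
    ring
  ind := by
    intro i α β h0
    apply h i α β
    have h1 : fnl (α • a i + β • b i) = 0 := by
      rw [← h0]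
      unfold fnl
      rw [map_add, map_smul, map_smul]
    unfold fnl at h1
    exact (LinearEquiv.map_eq_zero_iff _).1 h1

end Pool.Agent.Helper36.LM
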