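import Pool.Agent.Helper22.LM.Certificate
import Pool.Agent.Helper79.LM.DimCount
import Pool.Agent.Helper97.LM.EvenRank
import Pool.Agent.Helper88.LM.WeakDuality
import Pool.Agent.Helper4.LM.M3

/-!
# Local optimality implies optimality
-/

set_option autoImplicit false

namespace Pool.Agent.Helper36.LM

open Module Finset

variable {K : Type} [Field K] {E : Type} [AddCommGroup E] [Module K E] [FiniteDimensional K E]
  {ι : Type} [Fintype ι]

namespace Conf

theorem opt (hK : Big K (2 + Fintype.card ι + 2 * Fintype.card ι ^ 2)) (C : Conf K E ι)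
    (hI : ¬ C.Imp C.pot 3) (Z : Finset ι)
    (hZ : finrank K (⨆ i ∈ Z, C.line i : Submodule K (Dual K E)) = 2 * Z.card) :
    2 * Z.card ≤ C.rnk := by
  obtain ⟨κ, hκ, W, d, horth, hline⟩ := certificate hK C hI
  set P := (orth C.T (⨆ A, W A)).map C.T with hP
  set Q := ((⨆ A, W A) ⊓ orth C.T (⨆ A, W A)).map C.T with hQ
  have hQP : Q ≤ P := Submodule.map_mono inf_le_right
  have key := dim_count_of (fun T h => even_rank T h) C.T C.alt W horth d Q P hQ hP
  have hw := weak_duality (κ := Option κ) C.line C.finrank_line Z hZ Q
    (fun o => match o with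
      | none => P
      | some A => (W A).map C.T ⊔ Q ⊔ Submodule.span K {d A})
    (by
      rintro (_ | A)
      · exact hQP
      · exact le_sup_right.trans le_sup_left)
    (fun i => by
      classical
      exact if h : ∃ A, C.line i ≤ (W A).map C.T ⊔ Submodule.span K {d A} then some h.choose
        else none)
    (by
      intro i _
      by_cases h : ∃ A, C.line i ≤ (W A).map C.T ⊔ Submodule.span K {d A}
      · simp only [h, dite_true]
        refine h.choose_spec.trans ?_
        exact sup_le_sup_right le_sup_left _
      · simp only [h, dite_false]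
        rcases hline i with h' | h'
        · exact h'
        · exact absurd h' h)
  rw [Fintype.sum_option] at hw
  simp only at hw
  unfold rnk R
  omega

end Conf

variable {D : Type} [Fintype D] [DecidableEq D]

open Classical in
/-- At a local maximum of the potential the rank is twice the parity number. -/
theorem local_max (hK : Big K (2 + Fintype.card ι + 2 * Fintype.card ι ^ 2)) (a b : ι → D → K)
    (h : ∀ i (α β : K), α • a i + β • b i = 0 → α = 0 ∧ β = 0) (x : ι → K)
    (hx : ∀ y : ι → K, (Finset.univ.filter (fun i => y i ≠ x i)).card ≤ 3 →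
      mpot a b y ≤ mpot a b x) :
    (∀ Z : Finset ι, LinearIndependent K (fun i : Z × Fin 2 => ![a i.1, b i.1] i.2) →
      2 * Z.card ≤ (tmat a b x).rank) ∧
    ∃ Z : Finset ι, LinearIndependent K (fun i : Z × Fin 2 => ![a i.1, b i.1] i.2) ∧
      2 * Z.card = (tmat a b x).rank :=
  local_max_of (fun C hI Z hZ => Conf.opt hK C hI Z hZ) a b h x hx

end Pool.Agent.Helper36.LM
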